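import Pool.Agent.Q103.EC.Stm1
import Pool.Agent.Q182.GT.Cvl

/-!
# Project EC (helper103), job A3: covariance for arbitrary values
-/

set_option autoImplicit false

namespace Pool.Agent.Q65.EC

open Finset Polynomial FF
open Pool.Agent.Q41.GT
open Pool.Agent.Q41.SU
open Pool.Agent.Q103.EC
open Pool.Agent.Q182.GT (bd_map mbMap mbMap_den mbMap_det mbMap_app coeff_of_dvd)

/-- coefficients of a product -/
theorem coeff_one_mul' {K : Type} [Field K] (P Q : PowerSeries K) :
    PowerSeries.coeff 1 (P * Q) = PowerSeries.coeff 1 P * PowerSeries.constantCoeff Q +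
      PowerSeries.constantCoeff P * PowerSeries.coeff 1 Q := by
  rw [PowerSeries.coeff_mul, Finset.Nat.antidiagonal_succ]
  simp [add_comm]

theorem cvy (h1 : S_cov.{0}) : S_cvy := by
  intro K _ _ a b φ κ hκ hW m x y α β γ hdet hden
  let F := FractionRing (PowerSeries K)
  let ι : PowerSeries K →+* F := algebraMap (PowerSeries K) F
  have hι : Function.Injective ι := IsFractionRing.injective (PowerSeries K) F
  let g : K →+* F := ι.comp (PowerSeries.C (R := K))
  have hg : ∀ z : K, g z = ι (PowerSeries.C z) := fun z => rfl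
  -- the Moebius map over the power series
  let T : PowerSeries K := PowerSeries.X
  let cC : K → PowerSeries K := fun z => PowerSeries.C z
  obtain ⟨aa, haa⟩ : ∃ z : PowerSeries K, z = (1 + T * cC β) * cC m.α + T * cC α * cC m.γ := ⟨_, rfl⟩
  obtain ⟨bb, hbb⟩ : ∃ z : PowerSeries K, z = (1 + T * cC β) * cC m.β + T * cC α * cC m.δ := ⟨_, rfl⟩
  obtain ⟨cc, hcc⟩ : ∃ z : PowerSeries K, z = -(T * cC γ) * cC m.α + cC m.γ := ⟨_, rfl⟩
  obtain ⟨dd, hdd⟩ : ∃ z : PowerSeries K, z = -(T * cC γ) * cC m.β + cC m.δ := ⟨_, rfl⟩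
  let m' : Mb F := ⟨ι aa, ι bb, ι cc, ι dd⟩
  let x' : II a b → PowerSeries K := fun l => cC (x l) + T * cC (y l)
  let den' : II a b → PowerSeries K := fun l => cc * x' l + dd
  let num' : II a b → PowerSeries K := fun l => aa * x' l + bb
  let s : II a b → PowerSeries K := fun l => num' l * (den' l)⁻¹
  have hT0 : PowerSeries.constantCoeff T = 0 := PowerSeries.constantCoeff_X
  have hT1 : PowerSeries.coeff 1 T = 1 := PowerSeries.coeff_one_X
  have hC0 : ∀ z, PowerSeries.constantCoeff (cC z) = z := fun z => PowerSeries.constantCoeff_C z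
  have hC1 : ∀ z, PowerSeries.coeff 1 (cC z) = 0 := fun z => by
    change PowerSeries.coeff 1 (PowerSeries.C z) = 0
    rw [PowerSeries.coeff_C]
    simp
  have h10 : PowerSeries.coeff 1 (1 : PowerSeries K) = 0 := by
    rw [PowerSeries.coeff_one]
    simp
  have hx0 : ∀ l, PowerSeries.constantCoeff (x' l) = x l := by
    intro l
    change PowerSeries.constantCoeff (cC (x l) + T * cC (y l)) = _
    rw [map_add, map_mul, hC0, hT0, zero_mul, add_zero]
  have hx1 : ∀ l, PowerSeries.coeff 1 (x' l) = y l := by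
    intro l
    change PowerSeries.coeff 1 (cC (x l) + T * cC (y l)) = _
    rw [map_add, coeff_one_mul', hC1, hT0, hT1, hC0, hC1, zero_add, one_mul, mul_zero, add_zero]
  have haa0 : PowerSeries.constantCoeff aa = m.α := by
    rw [haa]
    simp only [map_add, map_mul, map_one, hT0, hC0]
    ring
  have hbb0 : PowerSeries.constantCoeff bb = m.β := by
    rw [hbb]
    simp only [map_add, map_mul, map_one, hT0, hC0]
    ring
  have hcc0 : PowerSeries.constantCoeff cc = m.γ := by
    rw [hcc]
    simp only [map_add, map_mul, map_neg, hT0, hC0]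
    ring
  have hdd0 : PowerSeries.constantCoeff dd = m.δ := by
    rw [hdd]
    simp only [map_add, map_mul, map_neg, hT0, hC0]
    ring
  have haa1 : PowerSeries.coeff 1 aa = β * m.α + α * m.γ := by
    rw [haa]
    simp only [map_add, map_mul, map_one, hT0, hC0, coeff_one_mul', hT1, hC1, h10]
    ring
  have hbb1 : PowerSeries.coeff 1 bb = β * m.β + α * m.δ := by
    rw [hbb]
    simp only [map_add, map_mul, map_one, hT0, hC0, coeff_one_mul', hT1, hC1, h10]
    ring
  have hcc1 : PowerSeries.coeff 1 cc = -(γ * m.α) := by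
    rw [hcc]
    simp only [map_add, map_mul, map_neg, hT0, hC0, coeff_one_mul', hT1, hC1]
    ring
  have hdd1 : PowerSeries.coeff 1 dd = -(γ * m.β) := by
    rw [hdd]
    simp only [map_add, map_mul, map_neg, hT0, hC0, coeff_one_mul', hT1, hC1]
    ring
  have hd0 : ∀ l, PowerSeries.constantCoeff (den' l) = m.den (x l) := by
    intro l
    change PowerSeries.constantCoeff (cc * x' l + dd) = _
    rw [map_add, map_mul, hcc0, hdd0, hx0]
    rfl
  have hd1 : ∀ l, PowerSeries.coeff 1 (den' l) = -(γ * m.α) * x l + m.γ * y l - γ * m.β := by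
    intro l
    change PowerSeries.coeff 1 (cc * x' l + dd) = _
    rw [map_add, coeff_one_mul', hcc0, hcc1, hdd1, hx0, hx1]
    ring
  have hn0 : ∀ l, PowerSeries.constantCoeff (num' l) = m.α * x l + m.β := by
    intro l
    change PowerSeries.constantCoeff (aa * x' l + bb) = _
    rw [map_add, map_mul, haa0, hbb0, hx0]
  have hn1 : ∀ l, PowerSeries.coeff 1 (num' l) = (β * m.α + α * m.γ) * x l + m.α * y l +
      (β * m.β + α * m.δ) := by
    intro l
    change PowerSeries.coeff 1 (aa * x' l + bb) = _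
    rw [map_add, coeff_one_mul', haa0, haa1, hbb1, hx0, hx1]
  have hd0' : ∀ l, PowerSeries.constantCoeff (den' l) ≠ 0 := fun l => by
    rw [hd0]
    exact hden l
  have hs : ∀ l, s l * den' l = num' l := by
    intro l
    change num' l * (den' l)⁻¹ * den' l = _
    rw [mul_assoc, PowerSeries.inv_mul_cancel _ (hd0' l), mul_one]
  have hs0 : ∀ l, PowerSeries.constantCoeff (s l) = m.app (x l) := by
    intro l
    have h2 := congrArg PowerSeries.constantCoeff (hs l)
    rw [map_mul, hd0, hn0] at h2
    unfold Mb.app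
    rw [eq_div_iff (hden l)]
    exact h2
  have hs1 : ∀ l, PowerSeries.coeff 1 (s l) = m.det * y l / m.den (x l) ^ 2 +
      (α + β * m.app (x l) + γ * m.app (x l) ^ 2) := by
    intro l
    have h2 := congrArg (PowerSeries.coeff 1) (hs l)
    rw [coeff_one_mul', hd0, hn1, hd1, hs0] at h2
    have h3 := hden l
    have h4 : m.app (x l) * m.den (x l) = m.α * x l + m.β := by
      unfold Mb.app
      rw [div_mul_cancel₀ _ h3]
    apply mul_right_cancel₀ (pow_ne_zero 2 h3)
    rw [add_mul, div_mul_cancel₀ _ (pow_ne_zero 2 h3)]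
    have h5 : m.den (x l) = m.γ * x l + m.δ := rfl
    have h6 : m.det = m.α * m.δ - m.β * m.γ := rfl
    have h7 : PowerSeries.coeff 1 (s l) * m.den (x l) =
        (β * m.α + α * m.γ) * x l + m.α * y l + (β * m.β + α * m.δ) -
          m.app (x l) * (-(γ * m.α) * x l + m.γ * y l - γ * m.β) := by
      rw [← h2]
      ring
    rw [pow_two, ← mul_assoc, h7]
    generalize m.app (x l) = w at *
    generalize m.den (x l) = e at *
    linear_combination (-(β + w * γ) * e - y l * m.γ) * h4 + (-(α * e) + y l * m.α) * h5 - y l * h6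
  -- the two identities
  have hdenm : ∀ l, m'.den (ι (x' l)) = ι (den' l) := by
    intro l
    change ι cc * ι (x' l) + ι dd = ι (cc * x' l + dd)
    rw [map_add ι (cc * x' l) dd, map_mul ι cc (x' l)]
  have happm : ∀ l, m'.app (ι (x' l)) = ι (s l) := by
    intro l
    have h2 : ι (den' l) ≠ 0 := by
      intro h
      have h3 : den' l = 0 := hι (by rw [h, map_zero])
      apply hd0' l
      rw [h3, map_zero]
    unfold Mb.app
    have h5 : ι (s l) * ι (den' l) = ι (num' l) := by
      rw [← map_mul ι (s l) (den' l), hs]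
    rw [hdenm, div_eq_iff h2, h5]
    change ι aa * ι (x' l) + ι bb = ι (aa * x' l + bb)
    rw [map_add ι (aa * x' l) bb, map_mul ι aa (x' l)]
  have hdetm : m'.det = ι (aa * dd - bb * cc) := by
    change ι aa * ι dd - ι bb * ι cc = _
    rw [map_sub, map_mul, map_mul]
  have e1 := (h1 F a b m' (fun l => ι (x' l)) (fun l => g (m.app (x l)))
    (fun l => by
      rw [hdenm]
      intro h
      have h3 : den' l = 0 := hι (by rw [h, map_zero])
      apply hd0' l
      rw [h3, map_zero])).1
  have e2 := (h1 F a b (mbMap g m) (fun l => g (x l)) (fun l => ι (x' l))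
    (fun l => by rw [mbMap_den]; exact (map_ne_zero g).2 (hden l))).2
  simp only [mbMap_den, mbMap_det, mbMap_app] at e2
  simp only [hdenm, happm, hdetm] at e1
  set P' : PowerSeries K := bd a b s (fun l => PowerSeries.C (m.app (x l))) with hP'
  set P : PowerSeries K := bd a b x' (fun l => PowerSeries.C (x l)) with hP
  set U : PowerSeries K := (∏ l, den' l ^ a) * ∏ l, PowerSeries.C (m.den (x l)) ^ b with hU
  set W : PowerSeries K := (aa * dd - bb * cc) ^ ((b + 1) * (a * (a + 1) / 2)) *
    PowerSeries.C m.det ^ ((a + 1) * (b * (b + 1) / 2)) with hWd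
  have e3 : bd a b (fun l => ι (s l)) (fun l => g (m.app (x l))) *
      ((∏ l, ι (den' l) ^ a) * ∏ l, g (m.den (x l)) ^ b) =
      bd a b (fun l => ι (x' l)) (fun l => g (x l)) *
        (ι (aa * dd - bb * cc) ^ ((b + 1) * (a * (a + 1) / 2)) *
          g m.det ^ ((a + 1) * (b * (b + 1) / 2))) := by
    rw [← mul_assoc, e1, mul_assoc, e2]
    ring
  have e4 : P' * U = P * W := by
    apply hι
    rw [map_mul ι P' U, map_mul ι P W, hP', hP, bd_map, bd_map, hU, hWd, map_mul, map_mul, map_prod,
      map_prod]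
    simp only [map_pow]
    exact e3
  have hU0 : PowerSeries.constantCoeff U = ∏ l, m.den (x l) ^ (a + b) := by
    rw [hU, map_mul, map_prod, map_prod, ← Finset.prod_mul_distrib]
    refine Finset.prod_congr rfl (fun l _ => ?_)
    rw [map_pow, map_pow, hd0, PowerSeries.constantCoeff_C, pow_add]
  have hW0 : PowerSeries.constantCoeff W =
      m.det ^ ((b + 1) * (a * (a + 1) / 2) + (a + 1) * (b * (b + 1) / 2)) := by
    have h2 : PowerSeries.constantCoeff (aa * dd - bb * cc) = m.det := by
      rw [map_sub, map_mul, map_mul, haa0, hbb0, hcc0, hdd0]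
      rfl
    rw [hWd, map_mul, map_pow, map_pow, h2, PowerSeries.constantCoeff_C, pow_add]
  obtain ⟨R', hR'⟩ := hW K (fun l => m.app (x l)) _ s hs0 hs1
  obtain ⟨R, hR⟩ := hW K x y x' hx0 hx1
  rw [← hP'] at hR'
  rw [← hP] at hR
  have key : ∀ (Z : K) (R : PowerSeries K),
      PowerSeries.coeff (cst φ) (PowerSeries.X ^ cst φ * (PowerSeries.C Z + PowerSeries.X * R)) =
        Z := by
    intro Z R
    have := PowerSeries.coeff_X_pow_mul (PowerSeries.C Z + PowerSeries.X * R) (cst φ) 0
    rw [zero_add] at this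
    rw [this, PowerSeries.coeff_zero_eq_constantCoeff_apply, map_add, map_mul,
      PowerSeries.constantCoeff_C, PowerSeries.constantCoeff_X, zero_mul, add_zero]
  have e5 : ((κ : PowerSeries K) * P') * U = ((κ : PowerSeries K) * P) * W := by
    rw [mul_assoc, e4, mul_assoc]
  have e6 := congrArg (PowerSeries.coeff (cst φ)) e5
  rw [coeff_of_dvd (cst φ) _ U ⟨_, hR'⟩, coeff_of_dvd (cst φ) _ W ⟨_, hR⟩, hU0, hW0, hR', hR, key,
    key] at e6
  rw [e6, mul_comm]

end Pool.Agent.Q65.EC
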