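import Pool.Agent.Q103.EC.Stm1
import Pool.Agent.Q223.GT.Ords

/-!
# Project EC (helper103), job A7: integrality at a place

The proof is the one of `Pool.Agent.Q223.GT.t_ords` (helper223).
-/

set_option autoImplicit false

namespace Pool.Agent.Q65.EC

open Finset Polynomial FF
open Pool.Agent.W602.GT
open Pool.Agent.W603.LV (Ge)
open Pool.Agent.Q41.SU
open Pool.Agent.Q41.GT
open Pool.Agent.Q103.EC
open Pool.Agent.Q223.GT

section
variable {k K : Type} [Field k] [Field K] [Algebra k K]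

theorem PhiY_zero {a b : ℕ} (φ : II a b → ℕ × ℕ) (E₀ d : ℕ) (α : K → K) (p q : K[X])
    (x : II a b → K) (y : K → K) (hN : 1 ≤ (a + 1) * (b + 1) - 1) (hb : 1 ≤ b)
    (hE : 1 ≤ E₀ * (d * (d - 1))) (hw : wro φ x (fun l => y (x l)) = 0) :
    PhiY φ E₀ d α p q x y = 0 := by
  unfold PhiY
  rw [hw, zero_pow, zero_mul, zero_div]
  positivity

theorem ord_PhiY (v : Place k K) {a b : ℕ} (φ : II a b → ℕ × ℕ) (E₀ d : ℕ) (α : K → K)
    (p q : K[X]) (x : II a b → K) (y : K → K) (hx : Function.Injective x)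
    (hg : ∀ l j, l ≠ j → gfn E₀ d α p q (x l) (x j) ≠ 0)
    (hw : wro φ x (fun l => y (x l)) ≠ 0) :
    PhiY φ E₀ d α p q x y ≠ 0 ∧ v.ord (PhiY φ E₀ d α p q x y) =
      ((2 * ((a + 1) * (b + 1) - 1) * b * (E₀ * (d * (d - 1))) : ℕ) : ℤ) *
        v.ord (wro φ x (fun l => y (x l))) +
      ((4 * ((a + 1) * (b + 1) - 1) : ℕ) : ℤ) *
        (∑ l, ∑ j ∈ univ.erase l, v.ord (gfn E₀ d α p q (x l) (x j))) -
      (((a + b) * b * (E₀ * (d * (d - 1))) : ℕ) : ℤ) *
        (∑ l, ∑ j ∈ univ.erase l, v.ord (x l - x j)) := by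
  have hs : ∀ l j, l ≠ j → x l - x j ≠ 0 := fun l j hlj h => hlj (hx (sub_eq_zero.1 h))
  have n1 := pprod_ne (gfn E₀ d α p q) x hg
  have n2 := pprod_ne (fun z z' => z - z') x hs
  have o1 := ord_pprod v (gfn E₀ d α p q) x hg
  have o2 := ord_pprod v (fun z z' => z - z') x hs
  unfold PhiY
  refine ⟨div_ne_zero (mul_ne_zero (pow_ne_zero _ hw) (pow_ne_zero _ n1)) (pow_ne_zero _ n2), ?_⟩
  rw [v.ord_div (mul_ne_zero (pow_ne_zero _ hw) (pow_ne_zero _ n1)) (pow_ne_zero _ n2),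
    v.ord_mul (pow_ne_zero _ hw) (pow_ne_zero _ n1), v.ord_pow, v.ord_pow, v.ord_pow, o1, o2]

end

theorem ordL (h1 : S_locv) (h2 : S_nmc) (h3 : S_wrf) (h4 : S_wrx) (h4' : S_wry) (h6 : S_gfn) :
    S_ordL := by
  intro d hd
  obtain ⟨N₁, c', η, hc', hc'1, hη, HL⟩ := h1 d hd
  obtain ⟨J, b, n0, hJ, hb, hN1, hdn, HN⟩ := h2 d N₁ c' η hd hc' hc'1 hη
  have hba : b ≤ J * b := Nat.le_mul_of_pos_left b (by omega)
  have ha2 : 2 ≤ J * b := by nlinarith
  obtain ⟨φ, κ, hφ, hκ, HW⟩ := h3 (J * b) b hba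
  have hcard : Fintype.card (II (J * b) b) = (J * b + 1) * (b + 1) := by
    rw [Fintype.card_prod, Fintype.card_fin, Fintype.card_fin]
  refine ⟨J * b, b, φ, hb, hba, ha2, hφ, cst_pos hφ (by omega) hb, ?_⟩
  intro n E₀ hE₀
  refine ⟨4 + 2 * n ^ 2 + 2 * (E₀ * (d * (d - 1))) * n ^ 2, by omega, ?_⟩
  intro k K _ _ _ _ p q hp hq hpq P hP hPn α hα0 hα v y hy x hx hxP
  have HG := h6 k K v E₀ d hE₀ hd p q hp hq hpq P hP α hα0 hα
  obtain ⟨R, hR⟩ := HL k K v p q hp hq hpq P hP (fun y => (v.ord (α y) : ℝ) / E₀) HG.1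
  -- constants
  have hd1 : 1 ≤ d - 1 := by omega
  have he1 : 1 ≤ E₀ * (d * (d - 1)) := by
    have : 1 ≤ d * (d - 1) := Nat.one_le_iff_ne_zero.2 (by positivity)
    nlinarith
  have hN2 : 1 ≤ (J * b + 1) * (b + 1) - 1 := by
    have : 2 ≤ (J * b + 1) * (b + 1) := by nlinarith
    omega
  have hdR : ((d - 1 : ℕ) : ℝ) = (d : ℝ) - 1 := by
    rw [Nat.cast_sub (by omega)]; simp
  have heR : ((E₀ * (d * (d - 1)) : ℕ) : ℝ) = E₀ * (d * ((d : ℝ) - 1)) := by
    push_cast [hdR]; ring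
  have hNR : (((J * b + 1) * (b + 1) - 1 : ℕ) : ℝ) =
      ((((J * b : ℕ) : ℝ) + 1) * ((b : ℝ) + 1) - 1) := by
    rw [Nat.cast_sub (by omega)]
    push_cast; ring
  obtain ⟨r1, r2, r3, r4⟩ := hR
  -- the forms
  have hform : Ge v R (PhiY φ E₀ d α p q x y) := by
    have hgne : ∀ l j, l ≠ j → gfn E₀ d α p q (x l) (x j) ≠ 0 := fun l j hlj =>
      (HG.2 (x l) (hxP l) (x j) (hxP j) (fun h => hlj (hx h))).1
    by_cases hw : wro φ x (fun l => y (x l)) = 0
    · left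
      exact PhiY_zero φ E₀ d α p q x y hN2 hb he1 hw
    right
    obtain ⟨-, hord⟩ := ord_PhiY v φ E₀ d α p q x y hx hgne hw
    -- the energy
    obtain ⟨En, hEn⟩ : ∃ En : ℝ, En = ∑ l, ∑ j ∈ univ.erase l,
      gg v.ord (fun y => (v.ord (α y) : ℝ) / E₀) d p q (x l) (x j) := ⟨_, rfl⟩
    have hEn2 : ((∑ l, ∑ j ∈ univ.erase l, v.ord (gfn E₀ d α p q (x l) (x j)) : ℤ) : ℝ) =
        ((E₀ * (d * (d - 1)) : ℕ) : ℝ) * En := by
      rw [hEn, heR]
      push_cast
      rw [mul_sum]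
      refine sum_congr rfl fun l _ => ?_
      rw [mul_sum]
      refine sum_congr rfl fun j hj => ?_
      exact (HG.2 (x l) (hxP l) (x j) (hxP j)
        (fun h => (ne_of_mem_erase hj) (hx h).symm)).2
    obtain ⟨S, hS⟩ : ∃ S : ℝ, S = ∑ l, ∑ j ∈ univ.erase l, (v.ord (x l - x j) : ℝ) := ⟨_, rfl⟩
    have hordR : (v.ord (PhiY φ E₀ d α p q x y) : ℝ) =
        2 * ((((J * b : ℕ) : ℝ) + 1) * ((b : ℝ) + 1) - 1) * b * ((E₀ * (d * (d - 1)) : ℕ) : ℝ) *
        (v.ord (wro φ x (fun l => y (x l))) - (((J * b : ℕ) : ℝ) + b) /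
        (2 * ((((J * b : ℕ) : ℝ) + 1) * ((b : ℝ) + 1) - 1)) * S + 2 / b * En) := by
      apply real_bracket
      · rw [← hNR]; positivity
      · positivity
      · rw [hord, ← hNR]
        have e1 : ((∑ l, ∑ j ∈ univ.erase l, v.ord (x l - x j) : ℤ) : ℝ) = S := by
          rw [hS]; push_cast; rfl
        rw [Int.cast_sub, Int.cast_add, Int.cast_mul, Int.cast_mul, Int.cast_mul, hEn2, e1]
        push_cast
        ring
    have hX : (1 : ℝ) ≤ 2 * ((((J * b : ℕ) : ℝ) + 1) * ((b : ℝ) + 1) - 1) * b *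
        ((E₀ * (d * (d - 1)) : ℕ) : ℝ) := by
      rw [← hNR]
      have : 1 ≤ 2 * ((J * b + 1) * (b + 1) - 1) * b * (E₀ * (d * (d - 1))) := by
        apply Nat.one_le_iff_ne_zero.2
        positivity
      exact_mod_cast this
    -- the two local estimates
    have hwr : ∀ (M : ℕ) (m : Mb K), m.det ≠ 0 → (∀ l, m.den (x l) ≠ 0 ∧ v.Reg (m.app (x l))) →
        (∀ l j, l ≠ j → v.ord (m.app (x l) - m.app (x j)) ≤ M) →
        (((J * b : ℕ) : ℝ) + b) / (2 * ((((J * b : ℕ) : ℝ) + 1) * ((b : ℝ) + 1) - 1)) *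
              (∑ l, ∑ j ∈ univ.erase l, (v.ord (x l - x j) : ℝ)) -
            LS (kap (J * b) b) M (fun l j => v.ord (m.app (x l) - m.app (x j))) ≤
          v.ord (wro φ x (fun l => y (x l))) ∧
        (((J * b : ℕ) : ℝ) + b) / (2 * ((((J * b : ℕ) : ℝ) + 1) * ((b : ℝ) + 1) - 1)) *
              (∑ l, ∑ j ∈ univ.erase l, (v.ord (x l - x j) : ℝ)) -
            LS (kap (J * b) b) M (fun l j => v.ord (m.app (x l) - m.app (x j))) +
            (LS (gam (J * b) b J) M (fun l j => v.ord (m.app (x l) - m.app (x j))) - cst φ) / J ≤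
          v.ord (wro φ x (fun l => y (x l))) := by
      intro M m hm hmx hmM
      rcases hy with ⟨D, hD, hyD⟩ | hy
      · have e : (fun l => y (x l)) = fun l => D (x l) := funext fun l => hyD _ (hxP l)
        rw [e] at hw ⊢
        exact h4 k K v D hD (J * b) b J M φ κ hκ (by omega) hb (by omega) HW x m hx hm hmx hmM hw
      · have hLg : Lgx v x (fun l => y (x l)) := by
          intro i j l m hij hlm him hlj
          refine hy _ ⟨x i, hxP i, x j, hxP j, x l, hxP l, x m, hxP m, fun h => hij (hx h),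
            fun h => hlm (hx h), fun h => him (hx h), fun h => hlj (hx h), rfl⟩
        obtain ⟨w1, w2⟩ := h4' k K v (J * b) b J M φ κ hκ (by omega) hb (by omega) HW x
          (fun l => y (x l)) m hx hm hmx hmM hLg hw
        refine ⟨w1, le_trans ?_ w2⟩
        have hJ0 : (0 : ℝ) < J := by exact_mod_cast (by omega : 0 < J)
        have h7 : (LS (gam (J * b) b J) M (fun l j => v.ord (m.app (x l) - m.app (x j))) - cst φ) /
            (J : ℝ) ≤ LS (gam (J * b) b J) M (fun l j => v.ord (m.app (x l) - m.app (x j))) / J := by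
          apply div_le_div_of_nonneg_right _ hJ0.le
          have : (0 : ℝ) ≤ cst φ := Nat.cast_nonneg _
          linarith
        linarith
    have key : (R : ℝ) ≤ v.ord (wro φ x (fun l => y (x l))) - (((J * b : ℕ) : ℝ) + b) /
        (2 * ((((J * b : ℕ) : ℝ) + 1) * ((b : ℝ) + 1) - 1)) * S + 2 / b * En := by
      -- the bound of the orders
      have hMex : ∀ o : II (J * b) b → II (J * b) b → ℤ, ∃ M : ℕ, ∀ l j, o l j ≤ M := by
        intro o
        refine ⟨univ.sup fun pp : II (J * b) b × II (J * b) b => (o pp.1 pp.2).toNat, ?_⟩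
        intro l j
        have h := le_sup (f := fun pp : II (J * b) b × II (J * b) b => (o pp.1 pp.2).toNat)
          (mem_univ (l, j))
        have h' := Int.self_le_toNat (o l j)
        have h'' : ((o l j).toNat : ℤ) ≤ ((univ.sup fun pp : II (J * b) b × II (J * b) b =>
          (o pp.1 pp.2).toNat : ℕ) : ℤ) := by exact_mod_cast h
        exact h'.trans h''
      rcases Nat.eq_zero_or_pos R with hR0 | hR1
      · -- good reduction
        obtain ⟨m, hm, hm1, hm2⟩ := r3 hR0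
        obtain ⟨M, hM⟩ := hMex fun l j => v.ord (m.app (x l) - m.app (x j))
        have hnn : ∀ l j, 0 ≤ v.ord (m.app (x l) - m.app (x j)) := fun l j =>
          ord_nonneg_of_reg v (reg_sub' v (hm1 _ (hxP l)).2 (hm1 _ (hxP j)).2)
        have w1 := (hwr M m hm (fun l => hm1 _ (hxP l)) (fun l j _ => hM l j)).1
        have w2 := (HN M (fun l j => v.ord (m.app (x l) - m.app (x j)))
          (fun l j _ => ⟨hnn l j, hM l j⟩)).1
        have e2 : ∑ l, ∑ j ∈ univ.erase l, (v.ord (m.app (x l) - m.app (x j)) : ℝ) = En := by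
          rw [hEn]
          refine sum_congr rfl fun l _ => sum_congr rfl fun j hj => ?_
          exact hm2 _ (hxP l) _ (hxP j) (fun h => (ne_of_mem_erase hj) (hx h).symm)
        rw [e2] at w2
        rw [← hS] at w1
        rw [hR0]
        push_cast at w1 w2 ⊢
        linarith
      · obtain ⟨m, hm, hm1, hm2, hm3⟩ := r4 (II (J * b) b) x hx hxP (by rw [hcard]; exact hN1)
        obtain ⟨M, hM⟩ := hMex fun l j => v.ord (m.app (x l) - m.app (x j))
        have hnn : ∀ l j, 0 ≤ v.ord (m.app (x l) - m.app (x j)) := fun l j =>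
          ord_nonneg_of_reg v (reg_sub' v (hm1 l).2 (hm1 j).2)
        have w1 := (hwr M m hm hm1 (fun l j _ => hM l j)).2
        have hr2 := r2 (II (J * b) b) x hx hxP n0 (by rw [hcard]; exact_mod_cast hdn)
        have hm3' := hm3 hR1
        rw [hcard] at hr2 hm3' hm2
        rw [← hEn] at hr2 hm3'
        have w2 := (HN M (fun l j => v.ord (m.app (x l) - m.app (x j)))
          (fun l j _ => ⟨hnn l j, hM l j⟩)).2 R (cst φ) En hR1 (cst_le hφ) hm2 hr2 hm3'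
        rw [← hS] at w1
        push_cast at w1 w2 ⊢
        linarith
    have fin := real_low _ _ _ _ hX (Nat.cast_nonneg R) hordR key
    exact_mod_cast fin
  -- the functions
  classical
  obtain ⟨𝒢, h𝒢⟩ : ∃ g : K, g = ∏ z ∈ P, ∏ z' ∈ P.erase z, gfn E₀ d α p q z z' := ⟨_, rfl⟩
  have hfun : ∀ h ∈ hfs E₀ d α p q P,
      Ge v (-((((4 + 2 * n ^ 2 + 2 * (E₀ * (d * (d - 1))) * n ^ 2 : ℕ) : ℤ)) * (R : ℤ))) h := by
    have hgne : ∀ z ∈ P, ∀ z' ∈ P.erase z, gfn E₀ d α p q z z' ≠ 0 :=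
      fun z hz z' hz' => (HG.2 z hz z' (mem_of_mem_erase hz') (ne_of_mem_erase hz').symm).1
    have hne : 𝒢 ≠ 0 := by
      rw [h𝒢, prod_ne_zero_iff]
      intro z hz
      rw [prod_ne_zero_iff]
      exact hgne z hz
    have hRv : (0 : ℝ) ≤ R := Nat.cast_nonneg _
    have he1R : (1 : ℝ) ≤ ((E₀ * (d * (d - 1)) : ℕ) : ℝ) := by exact_mod_cast he1
    have hord : (v.ord 𝒢 : ℝ) =
        ((E₀ * (d * (d - 1)) : ℕ) : ℝ) * ∑ z ∈ P, ∑ z' ∈ P.erase z,
          gg v.ord (fun y => (v.ord (α y) : ℝ) / E₀) d p q z z' := by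
      rw [h𝒢, ord_prodF v _ _ (fun z hz => prod_ne_zero_iff.2 (hgne z hz))]
      push_cast [heR]
      rw [mul_sum]
      refine sum_congr rfl fun z hz => ?_
      rw [ord_prodF v _ _ (hgne z hz), mul_sum]
      push_cast
      refine sum_congr rfl fun z' hz' => ?_
      rw [(HG.2 z hz z' (mem_of_mem_erase hz') (ne_of_mem_erase hz').symm).2]
    obtain ⟨b1, b2⟩ := EP_bound P (fun z z' => gg v.ord (fun y => (v.ord (α y) : ℝ) / E₀) d p q z z')
      R n (by rw [hPn]) hRv r1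
    have hCR : ((-((((4 + 2 * n ^ 2 + 2 * (E₀ * (d * (d - 1))) * n ^ 2 : ℕ) : ℤ)) * (R : ℤ)) : ℤ) : ℝ) =
        -((4 + 2 * (n : ℝ) ^ 2 + 2 * ((E₀ * (d * (d - 1)) : ℕ) : ℝ) * (n : ℝ) ^ 2) * R) := by
      push_cast; ring
    have hG0 : Ge v (-((((4 + 2 * n ^ 2 + 2 * (E₀ * (d * (d - 1))) * n ^ 2 : ℕ) : ℤ)) * (R : ℤ)))
        𝒢 := by
      right
      have := fun_real' R n _ _ hRv he1R b1
      rw [← hord, ← hCR] at this
      exact_mod_cast this
    have hGG : GG E₀ d α p q P = 𝒢 := by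
      rw [h𝒢]
      rfl
    rintro h (rfl | ⟨c, ⟨x0, hx0, x1, hx1, x2, hx2, x, hx, h01, h02, h12, hxx2, hxx0, rfl⟩, rfl⟩)
    · rw [hGG]
      exact hG0
    rw [hGG]
    have d1 : x - x0 ≠ 0 := sub_ne_zero.2 hxx0
    have d2 : x1 - x2 ≠ 0 := sub_ne_zero.2 h12
    have d3 : x - x2 ≠ 0 := sub_ne_zero.2 hxx2
    have d4 : x1 - x0 ≠ 0 := sub_ne_zero.2 h01.symm
    by_cases hxx1 : x = x1
    · have e1 : (x - x0) * (x1 - x2) / ((x - x2) * (x1 - x0)) = 1 := by
        rw [hxx1, mul_comm]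
        exact div_self (mul_ne_zero d2 d4)
      rw [e1, one_mul]
      exact hG0
    · right
      have hn1 : (x - x0) * (x1 - x2) ≠ 0 := mul_ne_zero d1 d2
      have hn2 : (x - x2) * (x1 - x0) ≠ 0 := mul_ne_zero d3 d4
      rw [v.ord_mul (div_ne_zero hn1 hn2) hne, v.ord_div hn1 hn2, v.ord_mul d1 d2, v.ord_mul d3 d4]
      have hb2 := b2 x hx x1 hx1 x2 hx2 x0 hx0 hxx1 hxx2 h01.symm
      have := fun_real R n ((E₀ * (d * (d - 1)) : ℕ) : ℝ) _ _ _ _ _ hRv he1R b1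
        (r1 x hx x0 hx0 hxx0) (r1 x1 hx1 x2 hx2 h12) hb2
      rw [← hord, ← hCR] at this
      have e2 : gg v.ord (fun y => (v.ord (α y) : ℝ) / E₀) d p q x x0 +
          gg v.ord (fun y => (v.ord (α y) : ℝ) / E₀) d p q x1 x2 -
          gg v.ord (fun y => (v.ord (α y) : ℝ) / E₀) d p q x x2 -
          gg v.ord (fun y => (v.ord (α y) : ℝ) / E₀) d p q x1 x0 =
          (v.ord (x - x0) : ℝ) + v.ord (x1 - x2) - (v.ord (x - x2) + v.ord (x1 - x0)) := by
        unfold gg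
        ring
      rw [e2] at this
      exact_mod_cast this
  -- the product
  intro h hh
  have hf := hfun h hh
  obtain ⟨C', hC'⟩ : ∃ C' : ℕ, C' = 4 + 2 * n ^ 2 + 2 * (E₀ * (d * (d - 1))) * n ^ 2 := ⟨_, rfl⟩
  rw [← hC'] at hf ⊢
  have hC1 : 1 ≤ C' := by omega
  by_cases hP0 : PhiY φ E₀ d α p q x y = 0
  · left
    rw [hP0, zero_pow (by omega), zero_mul]
  by_cases hh0 : h = 0
  · left
    rw [hh0, mul_zero]
  right
  rcases hform with h7 | h7
  · exact absurd h7 hP0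
  rcases hf with h8 | h8
  · exact absurd h8 hh0
  rw [v.ord_mul (pow_ne_zero _ hP0) hh0, v.ord_pow]
  have h9 : (C' : ℤ) * R ≤ C' * v.ord (PhiY φ E₀ d α p q x y) :=
    mul_le_mul_of_nonneg_left h7 (Nat.cast_nonneg _)
  linarith

end Pool.Agent.Q65.EC
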