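import Pool.Agent.Q103.EC.Stm1
import Pool.Agent.Q223.GT.Wrx

/-!
# Project EC (helper103), job A6: the local estimate for arbitrary values

The proof is the one of `Pool.Agent.Q223.GT.t_wrx` (helper223).
-/

set_option autoImplicit false

namespace Pool.Agent.Q65.EC

open Finset Polynomial FF
open Pool.Agent.W602.GT
open Pool.Agent.W603.LV (Ge)
open Pool.Agent.Q41.SU
open Pool.Agent.Q41.GT
open Pool.Agent.Q103.EC
open Pool.Agent.Q223.GT

theorem LS_mono {ι : Type*} [Fintype ι] [DecidableEq ι] {F G : ℕ → ℝ} (h : ∀ n, F n ≤ G n) (M : ℕ)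
    (o : ι → ι → ℤ) : LS F M o ≤ LS G M o := by
  unfold LS
  refine sum_le_sum fun i _ => sum_le_sum fun l _ => ?_
  exact div_le_div_of_nonneg_right (h _) (Nat.cast_nonneg _)

theorem LS_add {ι : Type*} [Fintype ι] [DecidableEq ι] (F G : ℕ → ℝ) (M : ℕ)
    (o : ι → ι → ℤ) : LS (fun n => F n + G n) M o = LS F M o + LS G M o := by
  unfold LS
  rw [← sum_add_distrib]
  refine sum_congr rfl fun i _ => ?_
  rw [← sum_add_distrib]
  refine sum_congr rfl fun l _ => ?_
  rw [add_div]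

theorem LS_div {ι : Type*} [Fintype ι] [DecidableEq ι] (F : ℕ → ℝ) (c : ℝ) (M : ℕ)
    (o : ι → ι → ℤ) : LS (fun n => F n / c) M o = LS F M o / c := by
  unfold LS
  rw [sum_div]
  refine sum_congr rfl fun i _ => ?_
  rw [sum_div]
  refine sum_congr rfl fun l _ => ?_
  rw [div_right_comm]

theorem wry (h1 : S_lip) (h2 : S_lgc) (h3 : S_cvy) (h4 : Pool.Agent.Q103.EC.S_inv) (h5 : S_cnc) (h6 : S_lsq) :
    S_wry := by
  intro k K _ _ _ _ v a b J M φ κ hκ ha hb hJ HW x y m hx hm hden hM hL hw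
  have hKc : CharZero K := charZero_of_injective_algebraMap (algebraMap k K).injective
  have hden0 : ∀ l, m.den (x l) ≠ 0 := fun l => (hden l).1
  -- the differences
  have hxs : ∀ l j, l ≠ j → x l - x j ≠ 0 := fun l j hlj h => hlj (hx (sub_eq_zero.1 h))
  have hys : ∀ l j, l ≠ j → m.app (x l) - m.app (x j) ≠ 0 := fun l j hlj => by
    rw [app_sub m (hden0 l) (hden0 j)]
    exact div_ne_zero (mul_ne_zero hm (hxs l j hlj)) (mul_ne_zero (hden0 l) (hden0 j))
  have hyinj : Function.Injective fun l => m.app (x l) := by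
    intro l j hlj
    by_contra hne
    exact hys l j hne (sub_eq_zero.2 hlj)
  have hcardn : Fintype.card (II a b) = (a + 1) * (b + 1) := by
    rw [Fintype.card_prod, Fintype.card_fin, Fintype.card_fin]
  have hL' : Lgx v (fun l => m.app (x l)) (fun l => m.det * y l / m.den (x l) ^ 2) := by
    intro i j l n hij hln hin hlj
    have e := h4 K (II a b) m x y 0 0 0 hm hx hden0 i j l n hij hln hin hlj
    have e2 : (fun l => m.det * y l / m.den (x l) ^ 2 +
        (0 + 0 * m.app (x l) + 0 * m.app (x l) ^ 2)) = fun l => m.det * y l / m.den (x l) ^ 2 := by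
      funext l
      ring
    rw [e2] at e
    rw [e]
    exact hL i j l n hij hln hin hlj
  obtain ⟨α, β, γ, hz1, hz2⟩ := h1 k K v (II a b) (fun l => m.app (x l))
    (fun l => m.det * y l / m.den (x l) ^ 2) hyinj (fun l => (hden l).2) hL' (by
      rw [hcardn]
      nlinarith)
  obtain ⟨z, hz⟩ : ∃ z : II a b → K, z = fun l => m.det * y l / m.den (x l) ^ 2 -
      (α + β * m.app (x l) + γ * m.app (x l) ^ 2) := ⟨_, rfl⟩
  have hcv := h3 K a b φ κ hκ HW m x y (-α) (-β) (-γ) hm hden0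
  have hz' : (fun l => m.det * y l / m.den (x l) ^ 2 +
      (-α + -β * m.app (x l) + -γ * m.app (x l) ^ 2)) = z := by
    rw [hz]
    funext l
    ring
  rw [hz'] at hcv
  obtain ⟨Ly, hLy⟩ : ∃ Ly, Ly = wro φ (fun l => m.app (x l)) z := ⟨_, rfl⟩
  rw [← hLy] at hcv
  have hprod0 : ∏ l, m.den (x l) ^ (a + b) ≠ 0 :=
    prod_ne_zero_iff.2 fun l _ => pow_ne_zero _ (hden0 l)
  have hLy0 : Ly ≠ 0 := by
    intro h0
    rw [h0, zero_mul] at hcv
    exact mul_ne_zero (pow_ne_zero _ hm) hw hcv.symm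
  have ho := congrArg v.ord hcv
  rw [v.ord_mul hLy0 hprod0, v.ord_mul (pow_ne_zero _ hm) hw, v.ord_pow,
    ord_prodF v _ _ (fun l _ => pow_ne_zero _ (hden0 l))] at ho
  have hyo : ∀ l j, l ≠ j → (v.ord (m.app (x l) - m.app (x j)) : ℝ) =
      v.ord m.det + v.ord (x l - x j) - v.ord (m.den (x l)) - v.ord (m.den (x j)) := by
    intro l j hlj
    rw [app_sub m (hden0 l) (hden0 j), v.ord_div (mul_ne_zero hm (hxs l j hlj))
      (mul_ne_zero (hden0 l) (hden0 j)), v.ord_mul hm (hxs l j hlj),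
      v.ord_mul (hden0 l) (hden0 j)]
    push_cast
    ring
  have hcard : (Fintype.card (II a b) : ℝ) = ((a : ℝ) + 1) * (b + 1) := by
    rw [hcardn]; push_cast; ring
  have hT : (0 : ℝ) < ((a : ℝ) + 1) * (b + 1) - 1 := by
    have h1 : (1 : ℝ) ≤ a := by exact_mod_cast ha
    have h2 : (1 : ℝ) ≤ b := by exact_mod_cast hb
    nlinarith
  obtain ⟨Sden, hSden⟩ : ∃ S : ℝ, S = ∑ l, (v.ord (m.den (x l)) : ℝ) := ⟨_, rfl⟩
  have hSy : ∑ l, ∑ j ∈ univ.erase l, (v.ord (m.app (x l) - m.app (x j)) : ℝ) =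
      ((a : ℝ) + 1) * (b + 1) * (((a : ℝ) + 1) * (b + 1) - 1) * (v.ord m.det : ℝ) +
      (∑ l, ∑ j ∈ univ.erase l, (v.ord (x l - x j) : ℝ)) -
      2 * (((a : ℝ) + 1) * (b + 1) - 1) * Sden := by
    have e1 : ∀ l, ∑ j ∈ univ.erase l, (v.ord (m.app (x l) - m.app (x j)) : ℝ) =
        (((a : ℝ) + 1) * (b + 1) - 1) * (v.ord m.det : ℝ) +
        (∑ j ∈ univ.erase l, (v.ord (x l - x j) : ℝ)) -
        (((a : ℝ) + 1) * (b + 1) - 1) * (v.ord (m.den (x l)) : ℝ) -
        (Sden - v.ord (m.den (x l))) := by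
      intro l
      rw [sum_congr rfl fun j hj => hyo l j (ne_of_mem_erase hj).symm]
      simp only [sum_sub_distrib, sum_add_distrib, sum_const, nsmul_eq_mul]
      have hc : (((univ.erase l).card : ℕ) : ℝ) = ((a : ℝ) + 1) * (b + 1) - 1 := by
        rw [card_erase_of_mem (mem_univ l), card_univ, Nat.cast_sub Fintype.card_pos, hcard]
        simp
      have hs : ∑ j ∈ univ.erase l, (v.ord (m.den (x j)) : ℝ) = Sden - v.ord (m.den (x l)) := by
        rw [hSden, sum_erase_eq_sub (mem_univ l)]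
      rw [hc, hs]
    rw [sum_congr rfl fun l _ => e1 l]
    simp only [sum_sub_distrib, sum_add_distrib, sum_const, nsmul_eq_mul, card_univ,
      ← mul_sum, ← hSden]
    rw [hcard]
    ring
  have hSy2 := h6 (II a b) M (fun l j => v.ord (m.app (x l) - m.app (x j)))
    (fun l j hlj => ⟨ord_nonneg_of_reg v (reg_sub' v (hden l).2 (hden j).2), hM l j hlj⟩)
  have hLK := LS_kap (a := a) (b := b) M (fun l j => v.ord (m.app (x l) - m.app (x j)))
  rw [hSy2] at hLK
  -- the estimate for the new values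
  have w0 : LS (fun n => (phi 1 1 a b n : ℝ)) M (fun l j => v.ord (m.app (x l) - m.app (x j))) ≤
      v.ord Ly := by
    rw [hLy]
    refine h2 k K v a b M φ κ hκ HW (fun l => m.app (x l)) z hyinj (fun l => (hden l).2) ?_ ?_ hM ?_
    · intro l
      rw [hz]
      exact hz1 l
    · intro l j hlj
      rw [hz]
      exact hz2 l j hlj
    · rw [← hLy]
      exact hLy0
  have w1 : LS (fun n => (phi 1 0 a b n : ℝ)) M (fun l j => v.ord (m.app (x l) - m.app (x j))) +
      LS (fun n => (phi 0 1 a b n : ℝ)) M (fun l j => v.ord (m.app (x l) - m.app (x j))) ≤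
      v.ord Ly := by
    rw [← LS_add]
    refine (LS_mono (fun n => ?_) M _).trans w0
    exact_mod_cast (h5 a b J n hJ).1
  have hJ0 : (0 : ℝ) < J := by exact_mod_cast hJ
  have w2 : LS (fun n => (phi 1 0 a b n : ℝ)) M (fun l j => v.ord (m.app (x l) - m.app (x j))) +
      LS (fun n => (phi 0 1 a b n : ℝ)) M (fun l j => v.ord (m.app (x l) - m.app (x j))) +
      LS (gam a b J) M (fun l j => v.ord (m.app (x l) - m.app (x j))) / J ≤ v.ord Ly := by
    rw [← LS_add, ← LS_div, ← LS_add]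
    refine (LS_mono (fun n => ?_) M _).trans w0
    have e := (h5 a b J n hJ).2
    have e' : (phi 1 J a b n : ℝ) + ((J : ℝ) - 1) * phi 1 0 a b n ≤ J * phi 1 1 a b n := by
      have e2 : (phi 1 J a b n : ℝ) + ((J - 1 : ℕ) : ℝ) * phi 1 0 a b n ≤ J * phi 1 1 a b n := by
        exact_mod_cast e
      rwa [Nat.cast_sub hJ, Nat.cast_one] at e2
    have e3 : (phi 1 0 a b n : ℝ) + phi 0 1 a b n + gam a b J n / J =
        ((phi 1 J a b n : ℝ) + ((J : ℝ) - 1) * phi 1 0 a b n) / J := by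
      unfold gam
      field_simp
      ring
    rw [e3, div_le_iff₀ hJ0]
    linarith
  have hoR : (v.ord Ly : ℝ) + ((a : ℝ) + b) * Sden =
      ((a : ℝ) + 1) * (b + 1) * (a + b) / 2 * (v.ord m.det : ℝ) +
      v.ord (wro φ x y) := by
    have e1 : ((∑ l, v.ord (m.den (x l) ^ (a + b)) : ℤ) : ℝ) = ((a : ℝ) + b) * Sden := by
      push_cast
      rw [hSden, mul_sum]
      refine sum_congr rfl fun l _ => ?_
      rw [v.ord_pow]
      push_cast
      ring
    have e2 := congrArg (Int.cast : ℤ → ℝ) ho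
    rw [Int.cast_add, Int.cast_add, Int.cast_mul, e1] at e2
    rw [e2, ← half_sum a b, Int.cast_natCast]
  have hSx0 : ∀ Q : ℝ, LS (fun n => (phi 1 0 a b n : ℝ)) M
      (fun l j => v.ord (m.app (x l) - m.app (x j))) +
      LS (fun n => (phi 0 1 a b n : ℝ)) M (fun l j => v.ord (m.app (x l) - m.app (x j))) + Q ≤
      v.ord Ly → ((a : ℝ) + b) / (2 * (((a : ℝ) + 1) * (b + 1) - 1)) *
          (∑ l, ∑ j ∈ univ.erase l, (v.ord (x l - x j) : ℝ)) -
        LS (kap a b) M (fun l j => v.ord (m.app (x l) - m.app (x j))) + Q ≤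
      v.ord (wro φ x y) := by
    intro Q hQ
    exact wrx_real (((a : ℝ) + 1) * (b + 1) - 1) (((a : ℝ) + 1) * (b + 1)) ((a : ℝ) + b)
      (v.ord Ly) Sden (v.ord m.det) _ _ _ _ _ _ _ hT rfl hoR hSy hLK Q hQ
  constructor
  · have := hSx0 0 (by rw [add_zero]; exact w1)
    rw [add_zero] at this
    exact this
  · exact hSx0 _ w2

end Pool.Agent.Q65.EC
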